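import Pool.Agent.H272R3.HM.Main

set_option autoImplicit false

namespace Pool.Agent.Results.MP_b87f19_lc.NoFinitePart

open Pool.Agent.H272R3.HM Filter Topology
open scoped ENNReal

/-- every set of positive `H^f`-measure has a subset of positive finite `H^f`-measure -/
def StarFor (f : ℝ → ℝ) : Prop :=
  ∀ A : Set ℝ, 0 < H f A → ∃ A0 ⊆ A, 0 < H f A0 ∧ H f A0 < ∞

/-- The statement `(∗)` of the problem. -/
def Star : Prop := ∀ f : ℝ → ℝ, Gauge f → StarFor f

/-- ZFC refutes `(∗)`. In fact, for a gauge function `f`, every set of positive `H^f`-measure has a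
subset of positive finite `H^f`-measure if and only if `f t / t` does not tend to infinity as
`t → 0+`; and if `f t / t` tends to infinity, there is a universally null set `A` with
`H^f(A) = ∞` each of whose subsets has `H^f`-measure `0` or `∞`. -/
theorem result :
    ¬ Star ∧
    (∀ f : ℝ → ℝ, Gauge f → (StarFor f ↔ ¬ Tendsto (fun t => f t / t) (𝓝[>] 0) atTop)) ∧
    (∀ f : ℝ → ℝ, Gauge f → Tendsto (fun t => f t / t) (𝓝[>] 0) atTop →
      ∃ A : Set ℝ, UnivNull A ∧ H f A = ∞ ∧ ∀ A0 ⊆ A, H f A0 = 0 ∨ H f A0 = ∞) := by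
  have h3 : ∀ f : ℝ → ℝ, Gauge f → Tendsto (fun t => f t / t) (𝓝[>] 0) atTop →
      ∃ A : Set ℝ, UnivNull A ∧ H f A = ∞ ∧ ∀ A0 ⊆ A, H f A0 = 0 ∨ H f A0 = ∞ := by
    intro f hf hlim
    obtain ⟨A, h1, h2⟩ := exists_bad hf hlim
    exact ⟨A, h1, h2, fun A0 h0 => zero_or_top hf h1 h0⟩
  have h2 : ∀ f : ℝ → ℝ, Gauge f →
      (StarFor f ↔ ¬ Tendsto (fun t => f t / t) (𝓝[>] 0) atTop) := by
    intro f hf
    constructor
    · intro hs hlim
      obtain ⟨A, _, h5, h6⟩ := h3 f hf hlim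
      obtain ⟨A0, h7, h8, h9⟩ := hs A (by rw [h5]; exact ENNReal.zero_lt_top)
      rcases h6 A0 h7 with h | h
      · exact h8.ne' h
      · exact h9.ne h
    · intro hlim A hA
      rw [tendsto_atTop] at hlim
      push Not at hlim
      obtain ⟨c, hc⟩ := hlim
      refine exists_subset_of_frequently hf (c := c) (fun δ hδ => ?_) hA
      have h5 : ∃ᶠ t in 𝓝[>] (0 : ℝ), f t / t < c := by
        exact hc.mono fun t ht => ht
      obtain ⟨t, ht1, ht2⟩ := (h5.and_eventually (Ioo_mem_nhdsGT hδ)).exists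
      refine ⟨t, ht2.1, ht2.2, ?_⟩
      rw [div_lt_iff₀ ht2.1] at ht1
      exact ht1.le
  refine ⟨fun hs => ?_, h2, h3⟩
  have hg : Gauge (fun t => Real.sqrt t) :=
    { mono := fun s t _ hst => Real.sqrt_le_sqrt hst
      rcont := fun t _ => Real.continuous_sqrt.continuousWithinAt
      zero := Real.sqrt_zero
      pos := fun t ht => Real.sqrt_pos.mpr ht }
  refine (h2 _ hg).mp (hs _ hg) ?_
  rw [tendsto_atTop]
  intro b
  have hb : (0 : ℝ) < 1 / (|b| + 1) ^ 2 := by positivity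
  filter_upwards [Ioo_mem_nhdsGT hb] with t ht
  have h4 : 0 < Real.sqrt t := Real.sqrt_pos.mpr ht.1
  have h5 : Real.sqrt t * Real.sqrt t = t := Real.mul_self_sqrt ht.1.le
  have h6 : Real.sqrt t < 1 / (|b| + 1) := by
    rw [Real.sqrt_lt' (by positivity), one_div_pow]
    exact ht.2
  rw [lt_div_iff₀ (by positivity)] at h6
  have h7 : b ≤ |b| := le_abs_self b
  have h8 : b * (Real.sqrt t * Real.sqrt t) ≤ Real.sqrt t := by
    have h9 : b * Real.sqrt t ≤ 1 := by nlinarith
    nlinarith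
  rw [h5] at h8
  rw [le_div_iff₀ ht.1]
  exact h8

end Pool.Agent.Results.MP_b87f19_lc.NoFinitePart
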